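import Mathlib
import Pool.Agent.Y710.KN.Base
import Pool.Agent.Y275.KN.Avg
import Pool.Agent.Helper298_KF.L_isIntegral_trace_of_pow

/-!
# The character of an invariant space of functions
-/

set_option linter.unusedSectionVars false
set_option linter.unusedVariables false
set_option autoImplicit false

namespace Pool.Agent.L7h94.FE

open Finset Module Pool.Agent.TH170.MF Pool.Agent.TH170.QC Pool.Agent.TH170.QE Pool.Agent.TH170.FW
  Pool.Agent.Y1.KN Pool.Agent.Y710.KN Pool.Agent.Y275.KN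

variable {G X : Type} [Group G] [Fintype G] [MulAction G X] [Fintype X]

/-- The character of the space `S`. -/
noncomputable def chi (S : Submodule ℚ (X → ℚ)) (γ : G) : ℚ :=
  LinearMap.trace ℚ (X → ℚ) (proj S ∘ₗ tr γ)

variable {S : Submodule ℚ (X → ℚ)}

theorem chi_eq (hS : Invariant G S) (γ : G) : chi S γ = LinearMap.trace ℚ S (trS hS γ) :=
  trace_proj_comp S (tr γ) fun _ hs => tr_mem hS γ hs

theorem chi_one : chi S (1 : G) = finrank ℚ S := by
  rw [chi, ← trace_proj S]
  congr 1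
  refine LinearMap.ext fun u => ?_
  rw [LinearMap.comp_apply, tr_one]

theorem tr_mul (γ δ : G) : (tr (γ * δ) : (X → ℚ) →ₗ[ℚ] (X → ℚ)) = tr δ ∘ₗ tr γ :=
  LinearMap.ext fun u => (tr_tr δ γ u).symm

theorem proj_comp_tr (hS : Invariant G S) (γ : G) : proj S ∘ₗ tr γ = tr γ ∘ₗ proj S :=
  LinearMap.ext fun u => proj_tr hS γ u

theorem chi_mul_comm (hS : Invariant G S) (γ δ : G) : chi S (γ * δ) = chi S (δ * γ) := by
  rw [chi, chi, tr_mul, tr_mul, ← LinearMap.comp_assoc, proj_comp_tr hS, LinearMap.comp_assoc,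
    LinearMap.trace_comp_comm', LinearMap.comp_assoc]

theorem chi_inv (hS : Invariant G S) (γ : G) : chi S γ⁻¹ = chi S γ := by
  classical
  rw [chi, chi, trace_eq_sum, trace_eq_sum]
  refine sum_congr rfl fun x _ => ?_
  have h1 : dot X (Pi.single x 1) (proj S (tr γ⁻¹ (Pi.single x 1))) =
      dot X (tr γ (proj S (Pi.single x 1))) (Pi.single x 1) := by
    rw [← proj_symm, ← dot_tr]
  change dot X _ (proj S (tr γ⁻¹ _)) = dot X _ (proj S (tr γ _))
  rw [h1, dot_comm, proj_tr hS]

theorem abs_chi_le (hS : Invariant G S) (γ : G) : |chi S γ| ≤ finrank ℚ S := by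
  classical
  have key : ∀ ε : ℚ, ε * ε = 1 → 0 ≤ 2 * (finrank ℚ S : ℚ) + 2 * (ε * chi S γ) := by
    intro ε hε
    have h0 : ∀ x : X, dot X (proj S (Pi.single x 1 + ε • tr γ (Pi.single x 1)))
        (proj S (Pi.single x 1 + ε • tr γ (Pi.single x 1))) =
        dot X (Pi.single x 1) (proj S (Pi.single x 1)) +
        ε * dot X (Pi.single x 1) ((proj S ∘ₗ tr γ) (Pi.single x 1)) +
        ε * dot X (Pi.single x 1) ((proj S ∘ₗ tr γ⁻¹) (Pi.single x 1)) +
        dot X (Pi.single x 1) (proj S (Pi.single x 1)) := by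
      intro x
      set u : X → ℚ := Pi.single x 1 with hu
      have e1 : dot X (proj S (u + ε • tr γ u)) (proj S (u + ε • tr γ u)) =
          dot X (u + ε • tr γ u) (proj S (u + ε • tr γ u)) := by
        rw [proj_symm, proj_of_mem S (proj_mem S _)]
      have e2 : dot X (tr γ u) (proj S u) = dot X u (proj S (tr γ⁻¹ u)) := by
        rw [dot_tr, proj_tr hS]
      have e3 : dot X (tr γ u) (proj S (tr γ u)) = dot X u (proj S u) := by
        rw [dot_tr, ← proj_tr hS, tr_inv_tr]
      rw [e1]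
      simp only [map_add, map_smul, LinearMap.add_apply, LinearMap.smul_apply, smul_eq_mul,
        LinearMap.comp_apply]
      rw [e2, e3]
      have e4 : ε * (ε * dot X u (proj S u)) = dot X u (proj S u) := by
        rw [← mul_assoc, hε, one_mul]
      rw [mul_add, e4]
      ring
    have h1 : 0 ≤ ∑ x : X, dot X (proj S (Pi.single x 1 + ε • tr γ (Pi.single x 1)))
        (proj S (Pi.single x 1 + ε • tr γ (Pi.single x 1))) := by
      refine sum_nonneg fun x _ => ?_
      rw [dot_apply]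
      exact sum_nonneg fun y _ => mul_self_nonneg _
    rw [sum_congr rfl fun x _ => h0 x, sum_add_distrib, sum_add_distrib, sum_add_distrib,
      ← mul_sum, ← mul_sum, ← trace_eq_sum, ← trace_eq_sum, ← trace_eq_sum, trace_proj] at h1
    change 0 ≤ (finrank ℚ S : ℚ) + ε * chi S γ + ε * chi S γ⁻¹ + finrank ℚ S at h1
    rw [chi_inv hS] at h1
    linarith
  have h1 := key 1 (by norm_num)
  have h2 := key (-1) (by norm_num)
  rw [abs_le]
  constructor <;> linarith

theorem chi_int (hS : Invariant G S) (γ : G) : ∃ z : ℤ, chi S γ = z := by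
  classical
  have hpow : ∀ k : ℕ, (proj S ∘ₗ tr γ) ^ (k + 1) = proj S ∘ₗ tr (γ ^ (k + 1)) := by
    intro k
    induction k with
    | zero => rw [zero_add, pow_one, pow_one]
    | succ k ih =>
      rw [pow_succ, ih, pow_succ γ (k + 1), tr_mul]
      refine LinearMap.ext fun u => ?_
      change proj S (tr (γ ^ (k + 1)) (proj S (tr γ u))) = proj S (tr γ (tr (γ ^ (k + 1)) u))
      rw [← proj_tr hS, proj_of_mem S (proj_mem S _), tr_tr, tr_tr, ← pow_succ, ← pow_succ']
  set m := orderOf γ with hm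
  have hm1 : 1 ≤ m := orderOf_pos γ
  obtain ⟨k, hk⟩ : ∃ k, m = k + 1 := ⟨m - 1, by omega⟩
  have h1 : (proj S ∘ₗ tr γ) ^ (m + 1) = proj S ∘ₗ tr γ := by
    rw [hpow, pow_succ, hm, pow_orderOf_eq_one, one_mul]
  let M : Matrix X X ℚ := LinearMap.toMatrixAlgEquiv' (proj S ∘ₗ tr γ)
  have h2 : M ^ (m + 1) = M := by
    change (LinearMap.toMatrixAlgEquiv' (proj S ∘ₗ tr γ)) ^ (m + 1) = _
    rw [← map_pow, h1]
  have h3 : M.trace = chi S γ := by
    rw [chi, LinearMap.trace_eq_matrix_trace ℚ (Pi.basisFun ℚ X)]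
    rfl
  have h4 := Pool.Agent.Helper298.isIntegral_trace_of_pow (M.map (algebraMap ℚ ℂ)) m hm1 (by
    rw [← Matrix.map_pow, h2])
  have h5 : (M.map (algebraMap ℚ ℂ)).trace = algebraMap ℚ ℂ (chi S γ) := by
    rw [← h3]
    exact (AddMonoidHom.map_trace (algebraMap ℚ ℂ) M).symm
  rw [h5, isIntegral_algebraMap_iff (algebraMap ℚ ℂ).injective] at h4
  obtain ⟨z, hz⟩ := IsIntegrallyClosed.isIntegral_iff.1 h4
  exact ⟨z, hz.symm⟩

/-- The operator given by the character. -/
noncomputable def Top (G : Type) {X : Type} [Group G] [Fintype G] [MulAction G X] [Fintype X]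
    (S : Submodule ℚ (X → ℚ)) : (X → ℚ) →ₗ[ℚ] (X → ℚ) := ∑ γ : G, chi S γ • tr γ

theorem Top_apply (u : X → ℚ) : Top G S u = ∑ γ : G, chi S γ • tr γ u := by
  rw [Top, LinearMap.sum_apply]
  rfl

theorem Top_app (u : X → ℚ) (x : X) : Top G S u x = ∑ γ : G, chi S γ * u (γ • x) := by
  rw [Top_apply, Finset.sum_apply]
  rfl

theorem Top_tr (hS : Invariant G S) (δ : G) (u : X → ℚ) :
    Top G S (tr δ u) = tr δ (Top G S u) := by
  rw [Top_apply, Top_apply, map_sum]
  refine Fintype.sum_equiv (MulAut.conj δ).toEquiv _ _ fun γ => ?_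
  change chi S γ • tr γ (tr δ u) = tr δ (chi S (δ * γ * δ⁻¹) • tr (δ * γ * δ⁻¹) u)
  rw [map_smul, tr_tr, tr_tr, inv_mul_cancel_right, chi_mul_comm hS, ← mul_assoc,
    inv_mul_cancel, one_mul]

theorem Top_symm (hS : Invariant G S) (u v : X → ℚ) :
    dot X (Top G S u) v = dot X u (Top G S v) := by
  rw [Top_apply, Top_apply, map_sum, map_sum, LinearMap.sum_apply]
  refine Fintype.sum_equiv (Equiv.inv G) _ _ fun γ => ?_
  rw [Equiv.inv_apply, chi_inv hS, map_smul, map_smul, LinearMap.smul_apply, dot_tr]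

theorem Top_mem (hS : Invariant G S) {u : X → ℚ} (hu : u ∈ S) : Top G S u ∈ S := by
  rw [Top_apply]
  exact S.sum_mem fun γ _ => S.smul_mem _ (tr_mem hS γ hu)

theorem Top_injOn {c : X → X} (hS : S ∈ MinInv G c) {u : X → ℚ} (hu : u ∈ S)
    (h0 : Top G S u = 0) : u = 0 := by
  have hinv : Invariant G S := hS.2.1
  let z : Module.End ℚ S := (Top G S).restrict fun v hv => Top_mem hinv hv
  have hz : z ∈ DD hinv := by
    rw [mem_DD]
    intro γ s
    exact Subtype.ext (Top_tr hinv γ s)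
  have htr : LinearMap.trace ℚ S z = ∑ γ : G, chi S γ * chi S γ := by
    rw [← trace_proj_comp S (Top G S) fun v hv => Top_mem hinv hv]
    have h1 : proj S ∘ₗ Top G S = ∑ γ : G, chi S γ • (proj S ∘ₗ tr γ) := by
      refine LinearMap.ext fun v => ?_
      rw [LinearMap.comp_apply, Top_apply, map_sum, LinearMap.sum_apply]
      exact sum_congr rfl fun γ _ => map_smul _ _ _
    rw [h1, map_sum]
    exact sum_congr rfl fun γ _ => by rw [map_smul, smul_eq_mul]; rfl
  have hz0 : z ≠ 0 := by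
    intro h
    rw [h, map_zero] at htr
    have h1 := (sum_eq_zero_iff_of_nonneg fun γ _ => mul_self_nonneg (chi S γ)).1 htr.symm
      (1 : G) (mem_univ _)
    rw [chi_one, mul_self_eq_zero] at h1
    have h2 : finrank ℚ S = 0 := by exact_mod_cast h1
    exact hS.1 (Submodule.finrank_eq_zero.1 h2)
  have h1 := DD_inj hS z hz hz0
  have h2 : z ⟨u, hu⟩ = z 0 := by
    rw [map_zero]
    exact Subtype.ext h0
  exact congrArg Subtype.val (h1 h2)

theorem Top_sq {u : X → ℚ} (hS : Invariant G S) (h : Top G S (Top G S u) = 0) :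
    Top G S u = 0 := by
  apply dot_self
  rw [Top_symm hS, h, map_zero]

theorem Top_odd {c : G} (hS : Invariant G S) (ho : AllOdd (fun x : X => c • x) S)
    (u : X → ℚ) (x : X) : Top G S u (c • x) = - Top G S u x := by
  have h1 : ∀ γ : G, chi S (γ * c⁻¹) = - chi S γ := by
    intro γ
    rw [chi, chi, ← map_neg]
    congr 1
    refine LinearMap.ext fun v => ?_
    change proj S (tr (γ * c⁻¹) v) = - proj S (tr γ v)
    rw [← tr_tr, proj_tr hS]
    funext y
    have h2 := ho _ (proj_mem S (tr γ v)) (c⁻¹ • y)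
    change proj S (tr γ v) (c • c⁻¹ • y) = - proj S (tr γ v) (c⁻¹ • y) at h2
    rw [smul_inv_smul] at h2
    rw [tr_apply, Pi.neg_apply, h2, neg_neg]
  rw [Top_app, Top_app, ← sum_neg_distrib]
  refine Fintype.sum_equiv (Equiv.mulRight c) _ _ fun γ => ?_
  rw [Equiv.coe_mulRight, mul_smul]
  have h2 := h1 (γ * c)
  rw [mul_inv_cancel_right] at h2
  rw [h2]
  ring

end Pool.Agent.L7h94.FE
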