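import Mathlib
import Pool.Agent.L7h94.FE.Chi

/-!
# The dimension of the range of the operator given by the character
-/

set_option linter.unusedSectionVars false
set_option linter.unusedVariables false
set_option autoImplicit false

namespace Pool.Agent.L7h94.FE

open Finset Module Pool.Agent.TH170.MF Pool.Agent.TH170.QC Pool.Agent.TH170.QE Pool.Agent.TH170.FW
  Pool.Agent.Y1.KN Pool.Agent.Y710.KN Pool.Agent.Y275.KN

variable {G X : Type} [Group G] [Fintype G] [MulAction G X] [Fintype X]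
  {S : Submodule ℚ (X → ℚ)}

theorem average (hS : Invariant G S) (x₀ : X) (y : X → ℚ)
    (h : ∀ s ∈ fixedPart G x₀ S, ∑ γ : G, y (γ • x₀) • tr γ⁻¹ s = 0) {s : X → ℚ} (hs : s ∈ S) :
    ∑ γ : G, y (γ • x₀) • tr γ⁻¹ s = 0 := by
  classical
  let H := MulAction.stabilizer G x₀
  have h1 := h (∑ η : H, tr (η : G) s) ⟨S.sum_mem fun η _ => tr_mem hS _ hs, fun δ hδ x => by
    rw [Finset.sum_apply, Finset.sum_apply]
    refine Fintype.sum_equiv (Equiv.mulRight (⟨δ, hδ⟩ : H)) _ _ fun η => ?_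
    rw [Equiv.coe_mulRight, tr_apply, tr_apply, Subgroup.coe_mul, mul_smul]⟩
  have h2 : ∀ γ : G, y (γ • x₀) • tr γ⁻¹ (∑ η : H, tr (η : G) s) =
      ∑ η : H, y (γ • x₀) • tr ((η : G) * γ⁻¹) s := by
    intro γ
    rw [map_sum, smul_sum]
    exact sum_congr rfl fun η _ => by rw [tr_tr]
  rw [sum_congr rfl fun γ _ => h2 γ, sum_comm] at h1
  have h3 : ∀ η : H, ∑ γ : G, y (γ • x₀) • tr ((η : G) * γ⁻¹) s =
      ∑ γ : G, y (γ • x₀) • tr γ⁻¹ s := by
    intro η
    refine Fintype.sum_equiv (Equiv.mulRight (η : G)⁻¹) _ _ fun γ => ?_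
    have hη : ((η : G)⁻¹) • x₀ = x₀ := by
      rw [inv_smul_eq_iff]
      exact η.2.symm
    rw [Equiv.coe_mulRight, mul_smul, hη, mul_inv_rev, inv_inv]
  rw [sum_congr rfl fun η _ => h3 η, sum_const, ← Nat.cast_smul_eq_nsmul ℚ] at h1
  refine (smul_eq_zero.1 h1).resolve_left ?_
  have h4 : 0 < (univ : Finset H).card := card_pos.2 ⟨1, mem_univ _⟩
  exact_mod_cast h4.ne'

theorem Top_app_zero (hS : Invariant G S) (x₀ : X) (y : X → ℚ)
    (h : ∀ s ∈ S, ∑ γ : G, y (γ • x₀) • tr γ⁻¹ s = 0) (δ : G) : Top G S y (δ • x₀) = 0 := by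
  rw [Top_app]
  have h1 : ∑ γ : G, chi S γ * y (γ • δ • x₀) = ∑ γ : G, y (γ • x₀) * chi S (δ * γ⁻¹) := by
    refine Fintype.sum_equiv (Equiv.mulRight δ) _ _ fun γ => ?_
    rw [Equiv.coe_mulRight, mul_smul, mul_inv_rev, mul_inv_cancel_left, chi_inv hS, mul_comm]
  rw [h1]
  have h2 : ∀ γ : G, y (γ • x₀) * chi S (δ * γ⁻¹) =
      LinearMap.trace ℚ (X → ℚ) (y (γ • x₀) • (tr γ⁻¹ ∘ₗ proj S ∘ₗ tr δ)) := by
    intro γ
    rw [map_smul, smul_eq_mul, chi]
    congr 2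
    rw [tr_mul, ← LinearMap.comp_assoc, proj_comp_tr hS, LinearMap.comp_assoc]
  rw [sum_congr rfl fun γ _ => h2 γ, ← map_sum]
  have h3 : ∑ γ : G, y (γ • x₀) • ((tr γ⁻¹ : (X → ℚ) →ₗ[ℚ] (X → ℚ)) ∘ₗ proj S ∘ₗ tr δ) = 0 := by
    refine LinearMap.ext fun v => ?_
    rw [LinearMap.sum_apply]
    exact h (proj S (tr δ v)) (proj_mem S _)
  rw [h3, map_zero]

/-- the evaluation map -/
noncomputable def ev (hS : Invariant G S) (x₀ : X) :
    (X → ℚ) →ₗ[ℚ] (fixedPart G x₀ S →ₗ[ℚ] S) :=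
  ∑ γ : G, (LinearMap.proj (R := ℚ) (φ := fun _ : X => ℚ) (γ • x₀)).smulRight
    (trS hS γ⁻¹ ∘ₗ Submodule.inclusion (fixedPart_le x₀ S))

theorem ev_apply (hS : Invariant G S) (x₀ : X) (y : X → ℚ) (s : fixedPart G x₀ S) :
    ((ev hS x₀ y s : S) : X → ℚ) = ∑ γ : G, y (γ • x₀) • tr γ⁻¹ (s : X → ℚ) := by
  rw [ev, LinearMap.sum_apply, LinearMap.sum_apply, Submodule.coe_sum]
  rfl

theorem finrank_range_le (hS : Invariant G S) (O : Finset X)
    (hO : ∀ x : X, ∃ x₀ ∈ O, ∃ δ : G, δ • x₀ = x) :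
    finrank ℚ (LinearMap.range (Top G S)) ≤
      ∑ x₀ ∈ O, finrank ℚ (fixedPart G x₀ S) * finrank ℚ S := by
  classical
  let Ψ : LinearMap.range (Top G S) →ₗ[ℚ] (∀ x₀ : O, fixedPart G (x₀ : X) S →ₗ[ℚ] S) :=
    (LinearMap.pi fun x₀ : O => ev hS (x₀ : X)) ∘ₗ (LinearMap.range (Top G S)).subtype
  have hΨ : Function.Injective Ψ := by
    refine (injective_iff_map_eq_zero Ψ).2 ?_
    rintro ⟨_, ⟨u, rfl⟩⟩ hy
    apply Subtype.ext
    change Top G S u = 0
    apply Top_sq hS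
    funext x
    obtain ⟨x₀, hx₀, δ, rfl⟩ := hO x
    refine Top_app_zero hS x₀ _ (fun s hs => average hS x₀ _ (fun t ht => ?_) hs) δ
    have h1 := congrFun hy ⟨x₀, hx₀⟩
    have h2 := LinearMap.congr_fun h1 ⟨t, ht⟩
    have h3 := congrArg Subtype.val h2
    change ((ev hS x₀ (Top G S u) ⟨t, ht⟩ : S) : X → ℚ) = 0 at h3
    rw [ev_apply] at h3
    exact h3
  have h1 := LinearMap.finrank_le_finrank_of_injective hΨ
  rw [Module.finrank_pi_fintype] at h1
  refine h1.trans (le_of_eq ?_)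
  rw [← sum_coe_sort O (fun x₀ => finrank ℚ (fixedPart G x₀ S) * finrank ℚ S)]
  exact sum_congr rfl fun x₀ _ => Module.finrank_linearMap ℚ ℚ _ _

/-- The elements which act trivially on `S`. -/
def kerN (G : Type) {X : Type} [Group G] [MulAction G X] (S : Submodule ℚ (X → ℚ))  :
    Subgroup G where
  carrier := {γ | ∀ s ∈ S, tr γ s = s}
  mul_mem' := by
    intro a b ha hb s hs
    rw [← tr_tr, ha s hs, hb s hs]
  one_mem' := fun s _ => tr_one s
  inv_mem' := by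
    intro a ha s hs
    have h1 := ha s hs
    calc tr a⁻¹ s = tr a⁻¹ (tr a s) := by rw [h1]
      _ = s := tr_inv_tr a s

theorem mem_kerN (γ : G) : γ ∈ kerN G S ↔ ∀ s ∈ S, tr γ s = s := Iff.rfl

theorem chi_mul_ker (hS : Invariant G S) {γ ν : G} (hν : ν ∈ kerN G S) :
    chi S (γ * ν) = chi S γ := by
  rw [chi, chi, tr_mul, ← LinearMap.comp_assoc, proj_comp_tr hS, LinearMap.comp_assoc]
  congr 1
  refine LinearMap.ext fun u => ?_
  exact hν _ (proj_mem S (tr γ u))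

theorem chi_congr (hS : Invariant G S) {γ δ : G} (h : (γ : G ⧸ kerN G S) = δ) :
    chi S γ = chi S δ := by
  have h1 : γ⁻¹ * δ ∈ kerN G S := QuotientGroup.eq.1 h
  have h2 := chi_mul_ker hS (γ := γ) h1
  rw [mul_inv_cancel_left] at h2
  exact h2.symm

/-- The order of the image of the group. -/
theorem card_quot_le {c : G} (hS : S ∈ MinInv G (fun x : X => c • x)) (x₀ : X) (b : ℕ)
    (hb : (finrank ℚ S : ℝ) * (1 - (finrank ℚ (fixedPart G x₀ S) : ℝ) / finrank ℚ S) ^ b < 1) :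
    Nat.card (G ⧸ kerN G S) ≤ Fintype.card X ^ b := by
  classical
  obtain ⟨T, Y, hY, hYd, hfix, hdim⟩ := greedy Pool.Agent.Y275.KN.avg_trace hS x₀ b
  have h1 : (finrank ℚ S : ℝ) < finrank ℚ Y + 1 := by linarith
  have h2 : finrank ℚ S < finrank ℚ Y + 1 := by exact_mod_cast h1
  have h3 : Y = S := Submodule.eq_of_le_of_finrank_le hY (by omega)
  subst h3
  have hinj : Function.Injective (fun q : G ⧸ kerN G Y => fun i => q.out • T i) := by
    intro q q' h
    have h4 : ∀ i, (q'.out⁻¹ * q.out) • T i = T i := by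
      intro i
      have h5 : q.out • T i = q'.out • T i := congrFun h i
      rw [mul_smul, h5, inv_smul_smul]
    have h5 : q'.out⁻¹ * q.out ∈ kerN G Y := fun s hs => funext fun x => hfix _ h4 s hs x
    have h6 := QuotientGroup.eq.2 h5
    rw [QuotientGroup.out_eq', QuotientGroup.out_eq'] at h6
    exact h6.symm
  have : Fintype (G ⧸ kerN G Y) := Fintype.ofFinite _
  calc Nat.card (G ⧸ kerN G Y) = Fintype.card (G ⧸ kerN G Y) := Nat.card_eq_fintype_card
    _ ≤ Fintype.card (Fin b → X) := Fintype.card_le_of_injective _ hinj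
    _ = Fintype.card X ^ b := by rw [Fintype.card_fun, Fintype.card_fin]

end Pool.Agent.L7h94.FE
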