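import Mathlib
import Pool.Agent.L7h94.FE.Dim

/-!
# Small integral vectors in the range of the operator
-/

set_option linter.unusedSectionVars false
set_option linter.unusedVariables false
set_option autoImplicit false

namespace Pool.Agent.L7h94.FE

open Finset Module Pool.Agent.TH170.MF Pool.Agent.TH170.QC Pool.Agent.TH170.QE Pool.Agent.TH170.FW
  Pool.Agent.Y1.KN Pool.Agent.Y710.KN Pool.Agent.Y275.KN

variable {G X : Type} [Group G] [Fintype G] [MulAction G X] [Fintype X]
  {S : Submodule ℚ (X → ℚ)}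

open Classical in
/-- the character, as an integer -/
noncomputable def chiz (S : Submodule ℚ (X → ℚ)) (γ : G) : ℤ :=
  if h : ∃ z : ℤ, chi S γ = z then h.choose else 0

theorem chiz_cast (hS : Invariant G S) (γ : G) : (chiz S γ : ℚ) = chi S γ := by
  classical
  have h := chi_int hS γ
  rw [chiz, dif_pos h]
  exact h.choose_spec.symm

theorem abs_chiz_le (hS : Invariant G S) (γ : G) : |chiz S γ| ≤ finrank ℚ S := by
  have h1 := abs_chi_le hS γ
  rw [← chiz_cast hS] at h1
  exact_mod_cast h1

noncomputable instance : Fintype (G ⧸ kerN G S) := Fintype.ofFinite _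

open Classical in
/-- the integral vector -/
noncomputable def wv (G : Type) {X : Type} [Group G] [Fintype G] [MulAction G X] [Fintype X]
    (S : Submodule ℚ (X → ℚ)) (x y : X) : ℤ :=
  ∑ q : G ⧸ kerN G S, if ∃ γ : G, (γ : G ⧸ kerN G S) = q ∧ γ • y = x then chiz S q.out else 0

open Classical in
/-- the order of the stabilizer in the kernel -/
noncomputable def stabN (G : Type) {X : Type} [Group G] [Fintype G] [MulAction G X] [Fintype X]
    (S : Submodule ℚ (X → ℚ)) (x : X) : ℕ :=
  (univ.filter fun ν : G => ν ∈ kerN G S ∧ ν • x = x).card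

theorem stabN_pos (x : X) : 0 < stabN G S x := by
  classical
  unfold stabN
  refine card_pos.2 ⟨1, ?_⟩
  rw [mem_filter]
  exact ⟨mem_univ _, (kerN G S).one_mem, one_smul G x⟩

theorem conj_mem_kerN (hS : Invariant G S) {ν : G} (hν : ν ∈ kerN G S) (γ : G) :
    γ * ν * γ⁻¹ ∈ kerN G S := by
  intro s hs
  have h1 : tr γ s ∈ S := tr_mem hS γ hs
  rw [mul_assoc, ← tr_tr, ← tr_tr]
  have h2 : tr (γ⁻¹ : G) (tr ν (tr γ s)) = s := by
    rw [hν _ h1, tr_inv_tr]
  exact h2

theorem Top_single [inst : DecidableEq X] (hS : Invariant G S) (x y : X) :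
    Top G S (Pi.single x 1) y = stabN G S x * (wv G S x y : ℚ) := by
  obtain rfl : inst = fun a b => Classical.propDecidable (a = b) := Subsingleton.elim _ _
  classical
  rw [Top_app]
  have h0 : ∑ γ : G, chi S γ * (Pi.single x (1 : ℚ) : X → ℚ) (γ • y) =
      ∑ γ : G, if γ • y = x then chi S γ else 0 := by
    refine sum_congr rfl fun γ _ => ?_
    rw [Pi.single_apply]
    split_ifs
    · rw [mul_one]
    · rw [mul_zero]
  rw [h0, ← Finset.sum_fiberwise (s := univ) (g := fun γ : G => (γ : G ⧸ kerN G S)), wv]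
  push_cast
  rw [mul_sum]
  refine sum_congr rfl fun q _ => ?_
  rw [← Finset.sum_filter, Finset.filter_filter]
  have h1 : ∀ γ ∈ univ.filter (fun γ : G => (γ : G ⧸ kerN G S) = q ∧ γ • y = x),
      chi S γ = chi S q.out := by
    intro γ hγ
    rw [mem_filter] at hγ
    refine chi_congr hS ?_
    rw [hγ.2.1, QuotientGroup.out_eq']
  rw [sum_congr rfl h1, sum_const, nsmul_eq_mul]
  by_cases hq : ∃ γ : G, (γ : G ⧸ kerN G S) = q ∧ γ • y = x
  · rw [if_pos hq, chiz_cast hS]
    congr 1
    obtain ⟨γ₀, hγ₀, hγ₀y⟩ := hq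
    have h2 : (univ.filter (fun γ : G => (γ : G ⧸ kerN G S) = q ∧ γ • y = x)).card =
        stabN G S x := by
      unfold stabN
      refine card_bij (fun γ _ => γ * γ₀⁻¹) ?_ ?_ ?_
      · intro γ hγ
        rw [mem_filter] at hγ ⊢
        refine ⟨mem_univ _, ?_, ?_⟩
        · have h3 : γ₀⁻¹ * γ ∈ kerN G S := by
            refine QuotientGroup.eq.1 ?_
            rw [hγ₀, hγ.2.1]
          have h4 := conj_mem_kerN hS h3 γ₀
          rwa [mul_inv_cancel_left] at h4
        · rw [mul_smul, ← hγ₀y, inv_smul_smul]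
          rw [hγ.2.2, hγ₀y]
      · intro γ _ γ' _ h
        exact mul_right_cancel h
      · intro ν hν
        rw [mem_filter] at hν
        refine ⟨ν * γ₀, ?_, mul_inv_cancel_right _ _⟩
        rw [mem_filter]
        refine ⟨mem_univ _, ?_, ?_⟩
        · rw [← hγ₀]
          refine (QuotientGroup.eq.2 ?_).symm
          have h4 := conj_mem_kerN hS hν.2.1 γ₀⁻¹
          rwa [inv_inv, mul_assoc] at h4
        · rw [mul_smul, hγ₀y, hν.2.2]
    exact_mod_cast h2
  · rw [if_neg hq]
    have h2 : univ.filter (fun γ : G => (γ : G ⧸ kerN G S) = q ∧ γ • y = x) = ∅ := by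
      rw [filter_eq_empty_iff]
      exact fun γ _ hγ => hq ⟨γ, hγ⟩
    rw [h2, card_empty, Nat.cast_zero, zero_mul, mul_zero]

theorem abs_wv_le (hS : Invariant G S) (x y : X) :
    |wv G S x y| ≤ Nat.card (G ⧸ kerN G S) * finrank ℚ S := by
  classical
  unfold wv
  refine (abs_sum_le_sum_abs _ _).trans ?_
  have h1 : ∀ q ∈ (univ : Finset (G ⧸ kerN G S)),
      |if ∃ γ : G, (γ : G ⧸ kerN G S) = q ∧ γ • y = x then chiz S q.out else 0| ≤
        (finrank ℚ S : ℤ) := by
    intro q _
    split_ifs
    · exact abs_chiz_le hS _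
    · rw [abs_zero]
      positivity
  refine (sum_le_sum h1).trans ?_
  rw [sum_const, nsmul_eq_mul, card_univ, Nat.card_eq_fintype_card]

/-- the vector as a rational function -/
noncomputable def wq (G : Type) {X : Type} [Group G] [Fintype G] [MulAction G X] [Fintype X]
    (S : Submodule ℚ (X → ℚ)) (x : X) : X → ℚ := fun y => (wv G S x y : ℚ)

theorem Top_single' [DecidableEq X] (hS : Invariant G S) (x : X) :
    Top G S (Pi.single x 1) = (stabN G S x : ℚ) • wq G S x :=
  funext fun y => Top_single hS x y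

theorem wq_mem (hS : Invariant G S) (x : X) : wq G S x ∈ LinearMap.range (Top G S) := by
  classical
  have h0 : (stabN G S x : ℚ) ≠ 0 := by exact_mod_cast (stabN_pos x).ne'
  refine ⟨(stabN G S x : ℚ)⁻¹ • Pi.single x 1, ?_⟩
  rw [map_smul, Top_single' hS, smul_smul, inv_mul_cancel₀ h0, one_smul]

theorem range_le_span (hS : Invariant G S) :
    LinearMap.range (Top G S) ≤ Submodule.span ℚ (Set.range (wq G S)) := by
  classical
  rintro _ ⟨u, rfl⟩
  have h1 : u = ∑ x, u x • (Pi.single x (1 : ℚ) : X → ℚ) := by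
    funext y
    rw [Finset.sum_apply, Finset.sum_eq_single y]
    · rw [Pi.smul_apply, Pi.single_eq_same, smul_eq_mul, mul_one]
    · intro x _ hx
      rw [Pi.smul_apply, Pi.single_eq_of_ne hx.symm, smul_zero]
    · intro h
      exact absurd (mem_univ _) h
  rw [h1, map_sum]
  refine Submodule.sum_mem _ fun x _ => ?_
  rw [map_smul, Top_single' hS]
  exact Submodule.smul_mem _ _ (Submodule.smul_mem _ _ (Submodule.subset_span ⟨x, rfl⟩))

end Pool.Agent.L7h94.FE
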