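import Mathlib
import Pool.Agent.L7h94.FE.Vec
import Pool.Agent.W472.AC.Siegel

/-!
# Small vectors in the space of relations
-/

set_option linter.unusedSectionVars false
set_option linter.unusedVariables false
set_option autoImplicit false

namespace Pool.Agent.L7h94.FE

open Finset Module Pool.Agent.TH170.MF Pool.Agent.TH170.QC Pool.Agent.TH170.QE Pool.Agent.TH170.FW
  Pool.Agent.Y1.KN Pool.Agent.Y710.KN Pool.Agent.Y275.KN

variable {G X : Type} [Group G] [Fintype G] [MulAction G X] [Fintype X]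
  {S : Submodule ℚ (X → ℚ)}

/-- The nonzero odd integral relations with the translates of `v`. -/
structure IsRelOf (G : Type) {X : Type} [Group G] [MulAction G X] [Fintype X] (c : G)
    (v n : X → ℤ) : Prop where
  ne_zero : n ≠ 0
  odd : ∀ x, n (c • x) = - n x
  rel : ∀ σ : G, ∑ x, n x * v (σ • x) = 0

/-- The space is orthogonal to the translates of `v`. -/
theorem orth_translate (hS : Invariant G S) {v : X → ℤ} (hv : ∀ s ∈ S, ∑ x, s x * (v x : ℚ) = 0)
    {s : X → ℚ} (hs : s ∈ S) (σ : G) : ∑ x, s x * (v (σ • x) : ℚ) = 0 := by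
  have h1 := hv _ (tr_mem hS σ⁻¹ hs)
  rw [← h1]
  refine Fintype.sum_equiv (MulAction.toPerm σ) _ _ fun x => ?_
  rw [MulAction.toPerm_apply, tr_apply, inv_smul_smul]

/-- the coordinates of the functions in `S` -/
theorem exists_coords {n : ℕ} (hn : finrank ℚ S = n) :
    ∃ f : (Fin n → ℚ) →ₗ[ℚ] (X → ℚ), Function.Injective f ∧ ∀ g, f g ∈ S := by
  subst hn
  let e : S ≃ₗ[ℚ] (Fin (finrank ℚ S) → ℚ) := (Module.finBasis ℚ S).equivFun
  refine ⟨S.subtype ∘ₗ e.symm.toLinearMap, ?_, fun g => (e.symm g).2⟩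
  exact (Submodule.injective_subtype S).comp e.symm.injective

/-- The direct use of Siegel's lemma. -/
theorem small_direct {c : G} (hfree : ∀ x : X, c • x ≠ x)
    (hS : S ∈ MinInv G (fun x : X => c • x)) {v : X → ℤ} {D₀ : ℕ} (hD₀ : 1 ≤ D₀)
    (hv1 : ∀ x, |v x| ≤ D₀) (hv : ∀ s ∈ S, ∑ x, s x * (v x : ℚ) = 0) (κ : ℕ)
    (hκ : Fintype.card X ≤ κ * finrank ℚ S) :
    ∃ n : X → ℤ, IsRelOf G c v n ∧ ∀ x, |n x| ≤ ((Fintype.card X * D₀) ^ κ : ℕ) := by
  classical
  obtain ⟨f, hf, hfS⟩ := exists_coords (S := S) rfl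
  have hd : 1 ≤ finrank ℚ S := by
    have h1 : finrank ℚ S ≠ 0 := by
      intro h
      exact hS.1 (Submodule.finrank_eq_zero.1 h)
    omega
  have hodd : ∀ s ∈ S, ∀ x, s (c • x) = - s x := hS.2.2.1
  let A : Matrix (G ⊕ X) X ℤ := Matrix.of fun i x => Sum.elim (fun σ : G => v (σ • x))
    (fun y : X => (if x = y then (1 : ℤ) else 0) + (if x = c • y then 1 else 0)) i
  have hA : ∀ i j, |A i j| ≤ (D₀ : ℕ) := by
    intro i x
    rcases i with σ | y
    · exact_mod_cast hv1 (σ • x)
    · have h1 : |(if x = y then (1 : ℤ) else 0) + (if x = c • y then 1 else 0)| ≤ 1 := by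
        split_ifs with h1 h2
        · exact absurd (h2.symm.trans h1) (hfree y)
        · norm_num
        · norm_num
        · norm_num
      exact h1.trans (by exact_mod_cast hD₀)
  obtain ⟨n, hn0, hn, hnb⟩ := Pool.Agent.W472.AC.siegel_rank A D₀ hD₀ hA (finrank ℚ S) κ hd hκ
    f hf (by
      intro g
      funext i
      rcases i with σ | y
      · have h1 := orth_translate hS.2.1 hv (hfS g) σ
        change ∑ x, ((v (σ • x) : ℤ) : ℚ) * f g x = 0
        rw [← h1]
        exact sum_congr rfl fun x _ => mul_comm _ _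
      · have h1 := hodd _ (hfS g) y
        change ∑ x, (((if x = y then (1 : ℤ) else 0) + (if x = c • y then 1 else 0) : ℤ) : ℚ) *
          f g x = 0
        push_cast
        simp only [add_mul, sum_add_distrib, ite_mul, one_mul, zero_mul, Finset.sum_ite_eq',
          mem_univ, if_true]
        rw [h1]
        ring)
  refine ⟨n, ⟨hn0, fun y => ?_, fun σ => ?_⟩, fun x => ?_⟩
  · have h1 := congrFun hn (Sum.inr y)
    change ∑ x, ((if x = y then (1 : ℤ) else 0) + (if x = c • y then 1 else 0)) * n x = 0 at h1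
    simp only [add_mul, sum_add_distrib, ite_mul, one_mul, zero_mul, Finset.sum_ite_eq',
      mem_univ, if_true] at h1
    linarith
  · have h1 := congrFun hn (Sum.inl σ)
    change ∑ x, v (σ • x) * n x = 0 at h1
    rw [← h1]
    exact sum_congr rfl fun x _ => mul_comm _ _
  · exact hnb x

/-- The use of Siegel's lemma in the isotypic component. -/
theorem small_isotypic {c : G} (hfree : ∀ x : X, c • x ≠ x)
    (hS : S ∈ MinInv G (fun x : X => c • x)) {v : X → ℤ} {D₀ : ℕ} (hD₀ : 1 ≤ D₀)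
    (hv1 : ∀ x, |v x| ≤ D₀) (hv : ∀ s ∈ S, ∑ x, s x * (v x : ℚ) = 0) (κ M : ℕ)
    (hκ : finrank ℚ (LinearMap.range (Top G S)) ≤ κ * finrank ℚ S)
    (hM : Nat.card (G ⧸ kerN G S) ≤ M) :
    ∃ n : X → ℤ, IsRelOf G c v n ∧
      ∀ x, |n x| ≤ ((Fintype.card X ^ 3 * M * D₀) ^ (κ + 1) : ℕ) := by
  classical
  have hinv : Invariant G S := hS.2.1
  set D := Fintype.card X with hD
  have hd : 1 ≤ finrank ℚ S := by
    have h1 : finrank ℚ S ≠ 0 := by
      intro h
      exact hS.1 (Submodule.finrank_eq_zero.1 h)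
    omega
  have hdD : finrank ℚ S ≤ D := by
    have h1 := Submodule.finrank_le S
    rwa [Module.finrank_fintype_fun_eq_card] at h1
  have hM1 : 1 ≤ M := le_trans Nat.card_pos hM
  -- a basis among the vectors `wq`
  obtain ⟨β, a, ha, hspan, hli⟩ := exists_linearIndependent' ℚ (wq G S)
  have hβf : Finite β := Finite.of_injective a ha
  have : Fintype β := Fintype.ofFinite β
  have hβD : Fintype.card β ≤ D := Fintype.card_le_of_injective a ha
  have hle : LinearMap.range (Top G S) ≤ Submodule.span ℚ (Set.range (wq G S ∘ a)) := by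
    rw [hspan]
    exact range_le_span hinv
  have hβκ : Fintype.card β ≤ κ * finrank ℚ S := by
    refine le_trans ?_ hκ
    have h1 : finrank ℚ (Submodule.span ℚ (Set.range (wq G S ∘ a))) = Fintype.card β :=
      finrank_span_eq_card hli
    rw [← h1]
    refine Submodule.finrank_mono ?_
    rw [Submodule.span_le]
    rintro _ ⟨i, rfl⟩
    exact wq_mem hinv _
  -- the coordinates
  have hSV : S ≤ Submodule.span ℚ (Set.range (wq G S ∘ a)) := by
    intro s hs
    refine hle ?_
    -- the operator is bijective on `S`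
    let z : Module.End ℚ S := (Top G S).restrict fun u hu => Top_mem hinv hu
    have hz : Function.Injective z := by
      rw [← LinearMap.ker_eq_bot, LinearMap.ker_eq_bot']
      intro u hu
      exact Subtype.ext (Top_injOn hS u.2 (congrArg Subtype.val hu))
    obtain ⟨u, hu⟩ := (LinearMap.injective_iff_surjective.1 hz) ⟨s, hs⟩
    exact ⟨(u : X → ℚ), congrArg Subtype.val hu⟩
  let bs := Module.Basis.span hli
  obtain ⟨f₀, hf₀, hf₀S⟩ := exists_coords (S := S) rfl
  let f₁ : (Fin (finrank ℚ S) → ℚ) →ₗ[ℚ] Submodule.span ℚ (Set.range (wq G S ∘ a)) :=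
    f₀.codRestrict _ fun g => hSV (hf₀S g)
  let f : (Fin (finrank ℚ S) → ℚ) →ₗ[ℚ] (β → ℚ) := bs.equivFun.toLinearMap ∘ₗ f₁
  have hf : Function.Injective f := by
    refine bs.equivFun.injective.comp ?_
    intro g g' h
    exact hf₀ (congrArg Subtype.val h)
  have hfsum : ∀ g, ∑ i, f g i • wq G S (a i) = f₀ g := by
    intro g
    have h1 := bs.sum_equivFun (f₁ g)
    have h2 := congrArg Subtype.val h1
    rw [Submodule.coe_sum] at h2
    refine Eq.trans (sum_congr rfl fun i _ => ?_) h2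
    change f g i • wq G S (a i) = (bs.equivFun (f₁ g) i) • ((bs i : _) : X → ℚ)
    rw [Module.Basis.span_apply]
    rfl
  set B : ℕ := D * (M * finrank ℚ S * D₀) with hB
  have hw : ∀ x y, |wv G S x y| ≤ (M * finrank ℚ S : ℕ) := by
    intro x y
    refine (abs_wv_le hinv x y).trans ?_
    exact_mod_cast Nat.mul_le_mul_right _ hM
  let A : Matrix G β ℤ := Matrix.of fun σ i => ∑ x, wv G S (a i) x * v (σ • x)
  have hA : ∀ σ i, |A σ i| ≤ (B : ℤ) := by
    intro σ i
    refine (abs_sum_le_sum_abs _ _).trans ?_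
    have h1 : ∀ x ∈ (univ : Finset X), |wv G S (a i) x * v (σ • x)| ≤
        ((M * finrank ℚ S * D₀ : ℕ) : ℤ) := by
      intro x _
      rw [abs_mul]
      calc |wv G S (a i) x| * |v (σ • x)| ≤ ((M * finrank ℚ S : ℕ) : ℤ) * D₀ :=
            mul_le_mul (hw _ _) (hv1 _) (abs_nonneg _) (by positivity)
        _ = _ := by push_cast; ring
    refine (sum_le_sum h1).trans ?_
    rw [sum_const, card_univ, nsmul_eq_mul, hB]
    push_cast
    rw [hD]
  have hX0 : 1 ≤ D := le_trans hd hdD
  have hB1 : 1 ≤ B := Nat.mul_pos hX0 (Nat.mul_pos (Nat.mul_pos hM1 hd) hD₀)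
  obtain ⟨z, hz0, hz, hzb⟩ := Pool.Agent.W472.AC.siegel_rank A B hB1 hA (finrank ℚ S) κ hd hβκ
    f hf (by
      intro g
      funext σ
      have h1 := orth_translate hinv hv (hf₀S g) σ
      rw [← hfsum g] at h1
      change ∑ i, ((∑ x, wv G S (a i) x * v (σ • x) : ℤ) : ℚ) * f g i = 0
      rw [← h1]
      push_cast
      simp only [Finset.sum_apply, Pi.smul_apply, smul_eq_mul, sum_mul]
      rw [sum_comm]
      refine sum_congr rfl fun x _ => sum_congr rfl fun i _ => ?_
      rw [wq]
      ring)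
  have hnq : ∀ x, ((∑ i, z i * wv G S (a i) x : ℤ) : ℚ) = (∑ i, (z i : ℚ) • wq G S (a i)) x := by
    intro x
    rw [Finset.sum_apply]
    push_cast
    rfl
  refine ⟨fun x => ∑ i, z i * wv G S (a i) x, ⟨?_, fun x => ?_, fun σ => ?_⟩, fun x => ?_⟩
  · intro h0
    have h1 : ∑ i, (z i : ℚ) • (wq G S ∘ a) i = 0 := by
      funext x
      have h2 := hnq x
      have h3 := congrFun h0 x
      beta_reduce at h3
      rw [h3] at h2
      exact h2.symm.trans (by rw [Pi.zero_apply, Pi.zero_apply, Int.cast_zero])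
    have h2 := (Fintype.linearIndependent_iff.1 hli) (fun i => (z i : ℚ)) h1
    apply hz0
    funext i
    exact_mod_cast h2 i
  · have h1 : (∑ i, (z i : ℚ) • wq G S (a i)) (c • x) = - (∑ i, (z i : ℚ) • wq G S (a i)) x := by
      rw [Finset.sum_apply, Finset.sum_apply, ← sum_neg_distrib]
      refine sum_congr rfl fun i _ => ?_
      obtain ⟨u, hu⟩ := wq_mem hinv (a i)
      rw [Pi.smul_apply, Pi.smul_apply, ← hu, Top_odd hinv hS.2.2.1, smul_neg]
    rw [← hnq, ← hnq] at h1
    exact_mod_cast h1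
  · have h1 := congrFun hz σ
    change ∑ i, (∑ x, wv G S (a i) x * v (σ • x)) * z i = 0 at h1
    rw [← h1]
    simp only [sum_mul]
    rw [sum_comm]
    refine sum_congr rfl fun i _ => sum_congr rfl fun x _ => ?_
    ring
  · refine (abs_sum_le_sum_abs _ _).trans ?_
    have h1 : ∀ i ∈ (univ : Finset β), |z i * wv G S (a i) x| ≤
        (((Fintype.card β * B) ^ κ * (M * finrank ℚ S) : ℕ) : ℤ) := by
      intro i _
      rw [abs_mul]
      push_cast
      refine mul_le_mul ?_ ?_ (abs_nonneg _) (by positivity)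
      · exact_mod_cast hzb i
      · exact_mod_cast hw _ _
    refine (sum_le_sum h1).trans ?_
    rw [sum_const, card_univ, nsmul_eq_mul]
    have h2 : Fintype.card β * ((Fintype.card β * B) ^ κ * (M * finrank ℚ S)) ≤
        (D ^ 3 * M * D₀) ^ (κ + 1) := by
      have h3 : Fintype.card β * B ≤ D ^ 3 * M * D₀ := by
        rw [hB]
        calc Fintype.card β * (D * (M * finrank ℚ S * D₀)) ≤ D * (D * (M * D * D₀)) := by gcongr
          _ = D ^ 3 * M * D₀ := by ring
      have h4 : Fintype.card β * (M * finrank ℚ S) ≤ D ^ 3 * M * D₀ := by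
        calc Fintype.card β * (M * finrank ℚ S) ≤ D * (M * D) := by gcongr
          _ = D ^ 2 * M * 1 := by ring
          _ ≤ D ^ 3 * M * D₀ := by
            refine Nat.mul_le_mul (Nat.mul_le_mul_right _ ?_) hD₀
            exact Nat.pow_le_pow_right hX0 (by norm_num)
      calc Fintype.card β * ((Fintype.card β * B) ^ κ * (M * finrank ℚ S))
          = (Fintype.card β * B) ^ κ * (Fintype.card β * (M * finrank ℚ S)) := by ring
        _ ≤ (D ^ 3 * M * D₀) ^ κ * (D ^ 3 * M * D₀) := by gcongr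
        _ = _ := (pow_succ _ _).symm
    exact_mod_cast h2

end Pool.Agent.L7h94.FE
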