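import Mathlib
import Pool.Agent.L7h94.FE.Small

/-!
# Small relations between the translates of an odd function
-/

set_option linter.unusedSectionVars false
set_option linter.unusedVariables false
set_option autoImplicit false

namespace Pool.Agent.L7h94.FE

open Finset Module Real Pool.Agent.TH170.MF Pool.Agent.TH170.QC Pool.Agent.TH170.QE
  Pool.Agent.TH170.FW Pool.Agent.Y1.KN Pool.Agent.Y710.KN Pool.Agent.Y275.KN

/-- The numerical part: few iterations. -/
theorem exists_b {d h : ℕ} (hd : 1 ≤ d) (hh : 1 ≤ h) (hhd : h ≤ d) :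
    ∃ b : ℕ, (d : ℝ) * (1 - (h : ℝ) / d) ^ b < 1 ∧ (b : ℝ) ≤ (d : ℝ) / h * log d + 1 := by
  have hd0 : (0 : ℝ) < d := by exact_mod_cast hd
  have hh0 : (0 : ℝ) < h := by exact_mod_cast hh
  have hl : 0 ≤ log (d : ℝ) := log_nonneg (by exact_mod_cast hd)
  have hx : 0 ≤ (d : ℝ) / h * log d := by positivity
  refine ⟨⌊(d : ℝ) / h * log d⌋₊ + 1, ?_, ?_⟩
  · set b := ⌊(d : ℝ) / h * log d⌋₊ + 1 with hb
    have h1 : (d : ℝ) / h * log d < b := by
      rw [hb]
      push_cast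
      exact Nat.lt_floor_add_one _
    have h2 : (0 : ℝ) ≤ 1 - (h : ℝ) / d := by
      rw [sub_nonneg, div_le_one hd0]
      exact_mod_cast hhd
    have h3 : (1 - (h : ℝ) / d) ^ b ≤ exp (-((h : ℝ) / d)) ^ b :=
      pow_le_pow_left₀ h2 (one_sub_le_exp_neg _) _
    rw [← exp_nat_mul] at h3
    have h4 : (b : ℝ) * -((h : ℝ) / d) < -log d := by
      have h5 : log (d : ℝ) < b * ((h : ℝ) / d) := by
        have h6 := mul_lt_mul_of_pos_right h1 (div_pos hh0 hd0)
        have h7 : (d : ℝ) / h * log d * ((h : ℝ) / d) = log d := by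
          field_simp
        rwa [h7] at h6
      linarith
    have h5 : exp ((b : ℝ) * -((h : ℝ) / d)) < (d : ℝ)⁻¹ := by
      calc exp ((b : ℝ) * -((h : ℝ) / d)) < exp (-log d) := exp_lt_exp.2 h4
        _ = (d : ℝ)⁻¹ := by rw [exp_neg, exp_log hd0]
    calc (d : ℝ) * (1 - (h : ℝ) / d) ^ b < d * (d : ℝ)⁻¹ :=
          mul_lt_mul_of_pos_left (h3.trans_lt h5) hd0
      _ = 1 := mul_inv_cancel₀ hd0.ne'
  · push_cast
    have := Nat.floor_le hx
    linarith

theorem two_thirds {g : ℕ} (hg : 1 ≤ g) : 0.69 < log (2 * (g : ℝ)) := by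
  have hgR : (1 : ℝ) ≤ g := by exact_mod_cast hg
  have h1 : log 2 ≤ log (2 * (g : ℝ)) := log_le_log (by norm_num) (by linarith)
  have h2 := Real.log_two_gt_d9
  linarith

theorem one_le_q {k g : ℕ} (hk : 1 ≤ k) (hg : 1 ≤ g) : 1 ≤ √((k : ℝ) * g) := by
  have hkR : (1 : ℝ) ≤ k := by exact_mod_cast hk
  have hgR : (1 : ℝ) ≤ g := by exact_mod_cast hg
  rw [show (1 : ℝ) = √1 by simp]
  apply Real.sqrt_le_sqrt
  nlinarith

/-- The numerical part of the first case. -/
theorem numeric_one {k g d κ : ℕ} (hk : 1 ≤ k) (hg : 1 ≤ g) (hd : 1 ≤ d) {Λ' : ℝ}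
    (hΛ : log (2 * (g : ℝ)) ≤ Λ') (hcase : (g : ℝ) ≤ d ^ 2 * k) (hκ : κ = 2 * g / d + 1) :
    (κ : ℝ) * Λ' ≤ 14 * √((k : ℝ) * g) * log (2 * (g : ℝ)) * Λ' := by
  have hkR : (1 : ℝ) ≤ k := by exact_mod_cast hk
  have hgR : (1 : ℝ) ≤ g := by exact_mod_cast hg
  have hdR : (1 : ℝ) ≤ d := by exact_mod_cast hd
  have hΛ2 := two_thirds hg
  have hq1 := one_le_q hk hg
  have hqq : √((k : ℝ) * g) * √((k : ℝ) * g) = k * g := Real.mul_self_sqrt (by positivity)
  set q := √((k : ℝ) * g)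
  set Λ := log (2 * (g : ℝ))
  have h3 : (κ : ℝ) ≤ 2 * q + 1 := by
    rw [hκ]
    push_cast
    have h4 : ((2 * g / d : ℕ) : ℝ) ≤ 2 * q := by
      refine Nat.cast_div_le.trans ?_
      rw [div_le_iff₀ (by linarith)]
      push_cast
      -- g ≤ q d
      have h5 : (g : ℝ) ≤ q * d := by
        have h6 : (g : ℝ) ^ 2 ≤ (q * d) ^ 2 := by
          have h7 : (q * d) ^ 2 = (k * g) * d ^ 2 := by
            rw [mul_pow, sq q, hqq]
          rw [h7]
          nlinarith
        exact abs_le_of_sq_le_sq' h6 (by positivity) |>.2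
      linarith
    linarith
  have hΛ0 : 0 < Λ := by linarith
  have hΛ'0 : 0 < Λ' := by linarith
  calc (κ : ℝ) * Λ' ≤ (2 * q + 1) * Λ' := mul_le_mul_of_nonneg_right h3 hΛ'0.le
    _ ≤ (3 * q) * Λ' := mul_le_mul_of_nonneg_right (by linarith) hΛ'0.le
    _ ≤ (3 * q) * Λ' * (14 / 3 * Λ) := by
        refine le_mul_of_one_le_right (by positivity) ?_
        linarith
    _ = 14 * q * Λ * Λ' := by ring

/-- The numerical part of the second case. -/
theorem numeric_two {k g d h b κ : ℕ} (hk : 1 ≤ k) (hg : 1 ≤ g) (hh : 1 ≤ h) (hhd : h ≤ d)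
    (hdg : d ≤ 2 * g) {Λ' : ℝ} (hΛ : log (2 * (g : ℝ)) ≤ Λ') (hcase : (d : ℝ) ^ 2 * k < g)
    (hb : (b : ℝ) ≤ (d : ℝ) / h * log d + 1) (hκ : κ ≤ k * h) :
    (((3 + b) * (κ + 1) : ℕ) : ℝ) * Λ' ≤ 14 * √((k : ℝ) * g) * log (2 * (g : ℝ)) * Λ' := by
  have hkR : (1 : ℝ) ≤ k := by exact_mod_cast hk
  have hgR : (1 : ℝ) ≤ g := by exact_mod_cast hg
  have hhR : (1 : ℝ) ≤ h := by exact_mod_cast hh
  have hhdR : (h : ℝ) ≤ d := by exact_mod_cast hhd
  have hdR : (1 : ℝ) ≤ d := hhR.trans hhdR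
  have hΛ2 := two_thirds hg
  have hq1 := one_le_q hk hg
  have hqq : √((k : ℝ) * g) * √((k : ℝ) * g) = k * g := Real.mul_self_sqrt (by positivity)
  have hlog : log (d : ℝ) ≤ log (2 * (g : ℝ)) := by
    refine log_le_log (by linarith) ?_
    exact_mod_cast hdg
  have hlog0 : 0 ≤ log (d : ℝ) := log_nonneg hdR
  set q := √((k : ℝ) * g)
  set Λ := log (2 * (g : ℝ))
  have hΛ0 : 0 < Λ := by linarith
  have hκR : (κ : ℝ) ≤ k * h := by exact_mod_cast hκ
  have hkd : (k : ℝ) * d ≤ q := by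
    have h6 : ((k : ℝ) * d) ^ 2 ≤ q ^ 2 := by
      rw [sq q, hqq]
      nlinarith
    exact abs_le_of_sq_le_sq' h6 (by positivity) |>.2
  have h3 : (((3 + b) * (κ + 1) : ℕ) : ℝ) ≤ 2 * q * Λ + 8 * q := by
    push_cast
    have h4 : (3 + (b : ℝ)) ≤ (d : ℝ) / h * Λ + 4 := by
      have h5 : (d : ℝ) / h * log d ≤ (d : ℝ) / h * Λ :=
        mul_le_mul_of_nonneg_left hlog (by positivity)
      linarith
    have h5 : (κ : ℝ) + 1 ≤ 2 * (k * h) := by nlinarith
    calc (3 + (b : ℝ)) * (κ + 1) ≤ ((d : ℝ) / h * Λ + 4) * (2 * (k * h)) := by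
          refine mul_le_mul h4 h5 (by positivity) (by positivity)
      _ = 2 * (k * d) * Λ + 8 * (k * h) := by
          field_simp
          ring
      _ ≤ 2 * q * Λ + 8 * q := by
          have h7 : (k : ℝ) * h ≤ k * d := mul_le_mul_of_nonneg_left hhdR (by linarith)
          have h8 : 2 * ((k : ℝ) * d) * Λ ≤ 2 * q * Λ :=
            mul_le_mul_of_nonneg_right (by linarith) hΛ0.le
          linarith
  have hΛ'0 : 0 < Λ' := by linarith
  have hpos : 0 < q * Λ' * (12 * Λ - 8) :=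
    mul_pos (mul_pos (by linarith) hΛ'0) (by linarith)
  calc (((3 + b) * (κ + 1) : ℕ) : ℝ) * Λ' ≤ (2 * q * Λ + 8 * q) * Λ' :=
        mul_le_mul_of_nonneg_right h3 hΛ'0.le
    _ = 14 * q * Λ * Λ' - q * Λ' * (12 * Λ - 8) := by ring
    _ ≤ 14 * q * Λ * Λ' := by linarith

variable {G X : Type} [Group G] [Fintype G] [MulAction G X] [Fintype X]

/-- Some point has fixed vectors. -/
theorem exists_fixed {S : Submodule ℚ (X → ℚ)} (hS : Invariant G S) (h0 : S ≠ ⊥) (O : Finset X)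
    (hO : ∀ x : X, ∃ x₀ ∈ O, ∃ δ : G, δ • x₀ = x) :
    ∃ x₀ ∈ O, 1 ≤ finrank ℚ (fixedPart G x₀ S) := by
  classical
  obtain ⟨s, hs, hs0⟩ := (Submodule.ne_bot_iff S).1 h0
  obtain ⟨x, hx⟩ := Function.ne_iff.1 hs0
  obtain ⟨x₀, hx₀, δ, rfl⟩ := hO x
  refine ⟨x₀, hx₀, ?_⟩
  have h1 : finrank ℚ (fixedPart G (δ • x₀) S) = finrank ℚ (fixedPart G x₀ S) := by
    have h2 := finrank_fixedPart hS δ⁻¹ x₀
    rwa [inv_inv] at h2
  rw [← h1]
  set x : X := δ • x₀
  have h2 : proj S (Pi.single x 1) ∈ fixedPart G x S := by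
    refine ⟨proj_mem S _, fun γ hγ y => ?_⟩
    have h3 : tr γ (Pi.single x (1 : ℚ) : X → ℚ) = Pi.single x 1 := by
      funext z
      rw [tr_apply, Pi.single_apply, Pi.single_apply]
      have h4 : γ • z = x ↔ z = x := by
        constructor
        · intro h
          have h5 : γ • z = γ • x := by rw [h, hγ]
          exact MulAction.injective γ h5
        · rintro rfl
          exact hγ
      simp only [h4]
    have h4 := congrFun (proj_tr hS γ (Pi.single x (1 : ℚ))) y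
    rw [h3] at h4
    exact h4.symm
  have h3 : proj S (Pi.single x 1) ≠ 0 := by
    intro h
    apply hx
    have h4 : dot X s (Pi.single x 1) = dot X s (proj S (Pi.single x 1)) := by
      have h5 := dot_sub_proj S hs (Pi.single x (1 : ℚ))
      rw [map_sub, sub_eq_zero] at h5
      exact h5
    rw [h, map_zero, dot_apply, Finset.sum_eq_single x] at h4
    · rwa [Pi.single_eq_same, mul_one] at h4
    · intro y _ hy
      rw [Pi.single_eq_of_ne hy, mul_zero]
    · intro h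
      exact absurd (mem_univ _) h
  have h4 : fixedPart G x S ≠ ⊥ := fun h => h3 ((Submodule.mem_bot ℚ).1 (h ▸ h2))
  have h5 : finrank ℚ (fixedPart G x S) ≠ 0 := fun h => h4 (Submodule.finrank_eq_zero.1 h)
  omega

/-- **Small relations.** -/
theorem small_group {c : G} (hfree : ∀ x : X, c • x ≠ x)
    (hcen : ∀ (γ : G) (x : X), c • γ • x = γ • c • x)
    {v : X → ℤ} {D₀ : ℕ} (hD₀ : 1 ≤ D₀) (hv1 : ∀ x, |v x| ≤ D₀) (O : Finset X)
    (hO : ∀ x : X, ∃ x₀ ∈ O, ∃ δ : G, δ • x₀ = x) {g : ℕ} (hg : Fintype.card X = 2 * g)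
    {n : X → ℤ} (hn : IsRelOf G c v n) :
    ∃ n' : X → ℤ, IsRelOf G c v n' ∧
      ∀ x, (|n' x| : ℝ) ≤ exp (14 * √(O.card * g) * log (2 * g) * log (2 * g * D₀)) := by
  classical
  -- the space of relations
  let L : Submodule ℚ (X → ℚ) :=
    { carrier := {u | (∀ x, u (c • x) = - u x) ∧ ∀ σ : G, ∑ x, u x * (v (σ • x) : ℚ) = 0}
      add_mem' := by
        rintro a b ⟨ha, ha'⟩ ⟨hb, hb'⟩
        refine ⟨fun x => ?_, fun σ => ?_⟩
        · rw [Pi.add_apply, Pi.add_apply, ha, hb]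
          ring
        · simp only [Pi.add_apply, add_mul, sum_add_distrib]
          rw [ha', hb', add_zero]
      zero_mem' := by
        refine ⟨fun x => ?_, fun σ => ?_⟩ <;> simp
      smul_mem' := by
        rintro r a ⟨ha, ha'⟩
        refine ⟨fun x => ?_, fun σ => ?_⟩
        · rw [Pi.smul_apply, Pi.smul_apply, ha, smul_neg]
        · simp only [Pi.smul_apply, smul_eq_mul, mul_assoc]
          rw [← mul_sum, ha', mul_zero] }
  have hLinv : Invariant G L := by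
    rintro γ s ⟨h1, h2⟩
    refine ⟨fun x => ?_, fun σ => ?_⟩
    · beta_reduce
      rw [← hcen, h1]
    · have h3 := h2 (σ * γ⁻¹)
      rw [← h3]
      refine Fintype.sum_equiv (MulAction.toPerm γ) _ _ fun x => ?_
      rw [MulAction.toPerm_apply, mul_smul, inv_smul_smul]
  have hLodd : AllOdd (fun x : X => c • x) L := fun s hs x => hs.1 x
  have hL0 : L ≠ ⊥ := by
    have h1 : (fun x => (n x : ℚ)) ∈ L := by
      refine ⟨fun x => ?_, fun σ => ?_⟩
      · change (n (c • x) : ℚ) = -(n x : ℚ)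
        rw [hn.odd]
        push_cast
        rfl
      · change ∑ x, (n x : ℚ) * (v (σ • x) : ℚ) = 0
        exact_mod_cast hn.rel σ
    intro h
    rw [h, Submodule.mem_bot] at h1
    apply hn.ne_zero
    funext x
    have h2 := congrFun h1 x
    change (n x : ℚ) = 0 at h2
    change n x = 0
    exact_mod_cast h2
  obtain ⟨S, hS, hSL⟩ := exists_minInv L hLinv hLodd hL0
  have hinv : Invariant G S := hS.2.1
  have hv : ∀ s ∈ S, ∑ x, s x * (v x : ℚ) = 0 := by
    intro s hs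
    have h1 := (hSL hs).2 1
    simpa using h1
  set d := finrank ℚ S with hd
  have hd1 : 1 ≤ d := by
    have h1 : finrank ℚ S ≠ 0 := by
      intro h
      exact hS.1 (Submodule.finrank_eq_zero.1 h)
    omega
  have hdg2 : d ≤ 2 * g := by
    have h1 := Submodule.finrank_le S
    rwa [Module.finrank_fintype_fun_eq_card, hg] at h1
  obtain ⟨x₁, hx₁, hfix₁⟩ := exists_fixed hinv hS.1 O hO
  have hk1 : 1 ≤ O.card := card_pos.2 ⟨x₁, hx₁⟩
  have hg1 : 1 ≤ g := by
    by_contra h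
    omega
  set k := O.card with hk
  have hgR : (1 : ℝ) ≤ g := by exact_mod_cast hg1
  have hΛ2 := two_thirds hg1
  have hDpos : (0 : ℝ) < 2 * g := by linarith
  have hD₀R : (1 : ℝ) ≤ D₀ := by exact_mod_cast hD₀
  have hD₀pos : (0 : ℝ) < 2 * g * D₀ := by positivity
  have hΛle : log (2 * (g : ℝ)) ≤ log (2 * (g : ℝ) * D₀) :=
    log_le_log hDpos (le_mul_of_one_le_right hDpos.le hD₀R)
  by_cases hcase : (g : ℝ) ≤ d ^ 2 * k
  · -- direct use
    set κ := Fintype.card X / d + 1 with hκ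
    have hκ1 : Fintype.card X ≤ κ * d := by
      rw [hκ, add_mul, one_mul]
      have h1 := Nat.div_add_mod (Fintype.card X) d
      have h2 := Nat.mod_lt (Fintype.card X) hd1
      have h3 : d * (Fintype.card X / d) = Fintype.card X / d * d := mul_comm _ _
      omega
    obtain ⟨n', hn', hb⟩ := small_direct hfree hS hD₀ hv1 hv κ hκ1
    refine ⟨n', hn', fun x => ?_⟩
    have h1 : (|n' x| : ℝ) ≤ (2 * (g : ℝ) * D₀) ^ κ := by
      have h2 := hb x
      rw [hg] at h2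
      exact_mod_cast h2
    refine h1.trans ?_
    have h2 : (2 * (g : ℝ) * D₀) ^ κ = exp (κ * log (2 * (g : ℝ) * D₀)) := by
      rw [exp_nat_mul, exp_log hD₀pos]
    rw [h2]
    apply exp_le_exp.2
    exact numeric_one hk1 hg1 hd1 hΛle hcase (by rw [hκ, hg])
  · push Not at hcase
    obtain ⟨x₂, hx₂, hmax⟩ := exists_max_image O (fun x => finrank ℚ (fixedPart G x S)) ⟨x₁, hx₁⟩
    set h := finrank ℚ (fixedPart G x₂ S) with hh
    have hh1 : 1 ≤ h := hfix₁.trans (hmax x₁ hx₁)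
    have hhd : h ≤ d := Submodule.finrank_mono (fixedPart_le x₂ S)
    obtain ⟨b, hb1, hb2⟩ := exists_b hd1 hh1 hhd
    have hM := card_quot_le hS x₂ b hb1
    set κ := ∑ x₀ ∈ O, finrank ℚ (fixedPart G x₀ S) with hκ
    have hκk : κ ≤ k * h := by
      rw [hκ]
      refine (sum_le_sum fun x hx => hmax x hx).trans ?_
      rw [sum_const, smul_eq_mul]
    obtain ⟨n', hn', hb⟩ := small_isotypic hfree hS hD₀ hv1 hv κ (Fintype.card X ^ b)
      (by
        refine (finrank_range_le hinv O hO).trans (le_of_eq ?_)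
        rw [hκ, sum_mul]) hM
    refine ⟨n', hn', fun x => ?_⟩
    have h1 : (|n' x| : ℝ) ≤ (2 * (g : ℝ) * D₀) ^ ((3 + b) * (κ + 1)) := by
      have h2 := hb x
      have h3 : (Fintype.card X ^ 3 * Fintype.card X ^ b * D₀) ^ (κ + 1) ≤
          (2 * g * D₀) ^ ((3 + b) * (κ + 1)) := by
        rw [pow_mul]
        refine Nat.pow_le_pow_left ?_ _
        rw [hg, ← pow_add, mul_pow (2 * g) D₀]
        refine Nat.mul_le_mul_left _ ?_
        exact Nat.le_self_pow (by omega) _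
      have h4 : |n' x| ≤ ((2 * g * D₀) ^ ((3 + b) * (κ + 1)) : ℕ) := h2.trans (by exact_mod_cast h3)
      exact_mod_cast h4
    refine h1.trans ?_
    have h2 : (2 * (g : ℝ) * D₀) ^ ((3 + b) * (κ + 1)) =
        exp (((3 + b) * (κ + 1) : ℕ) * log (2 * (g : ℝ) * D₀)) := by
      rw [exp_nat_mul, exp_log hD₀pos]
    rw [h2]
    apply exp_le_exp.2
    exact numeric_two hk1 hg1 hh1 hhd hdg2 hΛle hcase hb2 hκk

end Pool.Agent.L7h94.FE
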